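import Pool.Agent.H73.PHS.Stmts

/-!
Row HDZ of board phs: the derivative of the degree integral is zero.
-/

set_option autoImplicit false

open Set Filter Topology MeasureTheory Metric

namespace Pool.PHS

theorem hdz_det_cont {E : Type} [NormedAddCommGroup E] [NormedSpace ℝ E] [FiniteDimensional ℝ E]
    {ι : Type} [Fintype ι] [DecidableEq ι] (b : Module.Basis ι ℝ E) :
    Continuous (fun v : ι → E => b.det v) := by
  have h : (fun v : ι → E => b.det v) = fun v => (b.toMatrix v).det := by
    funext v
    exact b.det_apply v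
  rw [h]
  apply Continuous.matrix_det
  apply continuous_matrix
  intro i j
  have h2 : (fun v : ι → E => b.toMatrix v i j) = fun v => b.coord i (v j) := by
    funext v
    rw [Module.Basis.toMatrix_apply, Module.Basis.coord_apply]
  rw [h2]
  exact (b.coord i).continuous_of_finiteDimensional.comp (continuous_apply j)

theorem HDZ_thm (hPIO : PIOStmt) (hCRM : CRMStmt) (hDIV : DIVStmt) : HDZStmt := by
  intro E _ _ _ _ _ μ _ ι _ _ b G H ψ U Q hU hG hH hψ _ hQ hQU hsup
  classical
  let D : ContinuousMultilinearMap ℝ (fun _ : ι => E) ℝ :=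
    ⟨b.det.toMultilinearMap, hdz_det_cont b⟩
  have hD : ∀ v : ι → E, D v = b.det v := fun _ => rfl
  set C : ι → E → ℝ := fun j y =>
    b.det (Function.update (fun i => fderiv ℝ G y (b i)) j (H y)) with hC
  -- regularity of `C j`
  have hCdiff : ∀ j, ∀ z ∈ U, ContDiffAt ℝ 1 (C j) z := by
    intro j z hz
    have hUz : U ∈ 𝓝 z := hU.mem_nhds hz
    have hG2 : ContDiffAt ℝ 2 G z := hG.contDiffAt hUz
    have hG1 : ContDiffAt ℝ 1 (fderiv ℝ G) z := hG2.fderiv_right (m := 1) (by norm_num)
    have hH1 : ContDiffAt ℝ 1 H z := (hH.contDiffAt hUz).of_le (by norm_num)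
    have hv : ContDiffAt ℝ 1 (fun y => Function.update (fun i => fderiv ℝ G y (b i)) j (H y)) z := by
      rw [contDiffAt_pi]
      intro i
      by_cases hij : i = j
      · subst hij
        simp only [Function.update_self]
        exact hH1
      · simp only [Function.update_of_ne hij]
        exact hG1.clm_apply contDiffAt_const
    have := D.contDiff.contDiffAt.comp z hv
    exact this
  have hψG : ∀ z ∈ U, ContDiffAt ℝ 1 (fun y => ψ (G y)) z := by
    intro z hz
    have hG2 : ContDiffAt ℝ 1 G z := (hG.contDiffAt (hU.mem_nhds hz)).of_le (by norm_num)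
    exact hψ.contDiffAt.comp z hG2
  set X : ι → E → ℝ := fun j => U.indicator (fun y => ψ (G y) * C j y) with hX
  have hXoff : ∀ j, ∀ z, z ∉ Q → X j z = 0 := by
    intro j z hz
    by_cases hzU : z ∈ U
    · have : ψ (G z) = 0 := by
        by_contra hne
        exact hz (hsup z hzU hne)
      simp only [hX, indicator_of_mem hzU, this, zero_mul]
    · simp only [hX, indicator_of_notMem hzU]
  have hXU : ∀ j, ∀ z ∈ U, X j =ᶠ[𝓝 z] fun y => ψ (G y) * C j y := by
    intro j z hz
    filter_upwards [hU.mem_nhds hz] with y hy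
    simp only [hX, indicator_of_mem hy]
  have hXQ : ∀ j, ∀ z, z ∉ Q → X j =ᶠ[𝓝 z] fun _ => (0 : ℝ) := by
    intro j z hz
    filter_upwards [hQ.isClosed.isOpen_compl.mem_nhds hz] with y hy
    exact hXoff j y hy
  have hXc : ∀ j, ContDiff ℝ 1 (X j) := by
    intro j
    rw [contDiff_iff_contDiffAt]
    intro z
    by_cases hz : z ∈ U
    · exact ((hψG z hz).mul (hCdiff j z hz)).congr_of_eventuallyEq (hXU j z hz)
    · exact contDiffAt_const.congr_of_eventuallyEq (hXQ j z (fun h => hz (hQU h)))
  have hXs : ∀ j, HasCompactSupport (X j) := fun j =>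
    HasCompactSupport.intro hQ (fun z hz => hXoff j z hz)
  have hint : ∀ j, Integrable (fun z => fderiv ℝ (X j) z (b j)) μ := by
    intro j
    have hc : Continuous fun z => fderiv ℝ (X j) z (b j) :=
      ((hXc j).continuous_fderiv one_ne_zero).clm_apply continuous_const
    exact hc.integrable_of_hasCompactSupport ((hXs j).fderiv_apply ℝ (b j))
  have hsum : ∫ z, ∑ j, fderiv ℝ (X j) z (b j) ∂μ = 0 := by
    rw [integral_finsetSum _ (fun j _ => hint j)]
    exact Finset.sum_eq_zero fun j _ => hDIV E μ (X j) (b j) (hXc j) (hXs j)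
  -- the pointwise identity on `U`
  have hpt : ∀ z ∈ U, fderiv ℝ ψ (G z) (H z) * b.det (fun i => fderiv ℝ G z (b i)) +
      ψ (G z) * ∑ j, b.det (Function.update (fun i => fderiv ℝ G z (b i)) j
        (fderiv ℝ H z (b j))) = ∑ j, fderiv ℝ (X j) z (b j) := by
    intro z hz
    have hGd : DifferentiableAt ℝ G z :=
      (hG.contDiffAt (hU.mem_nhds hz)).differentiableAt (by norm_num)
    have hψd : DifferentiableAt ℝ ψ (G z) := hψ.differentiable one_ne_zero (G z)
    have h1 : ∀ j, fderiv ℝ (X j) z (b j) =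
        ψ (G z) * fderiv ℝ (C j) z (b j) + fderiv ℝ ψ (G z) (C j z • fderiv ℝ G z (b j)) := by
      intro j
      rw [(hXU j z hz).fderiv_eq]
      have hd1 : DifferentiableAt ℝ (fun y => ψ (G y)) z :=
        (hψG z hz).differentiableAt one_ne_zero
      have hd2 : DifferentiableAt ℝ (C j) z := (hCdiff j z hz).differentiableAt one_ne_zero
      have hm := fderiv_fun_mul hd1 hd2
      rw [hm]
      have hcomp : fderiv ℝ (fun y => ψ (G y)) z = (fderiv ℝ ψ (G z)).comp (fderiv ℝ G z) :=
        fderiv_fun_comp z hψd hGd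
      rw [hcomp]
      simp only [ContinuousLinearMap.add_apply, ContinuousLinearMap.smul_apply,
        ContinuousLinearMap.comp_apply, smul_eq_mul, map_smul]
    have h2 := hPIO E ι b G H U hU hG (hH.of_le (by norm_num)) z hz
    have h3 := hCRM E ι b (fun i => fderiv ℝ G z (b i)) (H z)
    rw [Finset.sum_congr rfl fun j _ => h1 j, Finset.sum_add_distrib, ← Finset.mul_sum,
      ← map_sum (fderiv ℝ ψ (G z))]
    have h4 : ∑ j, C j z • fderiv ℝ G z (b j) = b.det (fun i => fderiv ℝ G z (b i)) • H z := h3
    rw [h4, map_smul, smul_eq_mul, ← h2]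
    ring
  have hoff : ∀ z, z ∉ U → ∑ j, fderiv ℝ (X j) z (b j) = 0 := by
    intro z hz
    refine Finset.sum_eq_zero fun j _ => ?_
    rw [(hXQ j z (fun h => hz (hQU h))).fderiv_eq]
    simp
  rw [setIntegral_congr_fun hU.measurableSet hpt,
    setIntegral_eq_integral_of_forall_compl_eq_zero hoff]
  exact hsum

end Pool.PHS
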